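import Pool.Agent.H13.LN.Targets

/-!
# Board lnt_modules: row BRI (the bridge)
-/

set_option autoImplicit false

open Finset

namespace Pool.Agent.H86.LNT

open Pool.Agent.H59.LIN Pool.Agent.H13.LN

theorem hom_ext {d : ℕ} {B : Type} [AddCommGroup B] (f g : Chd d →+ B)
    (h : ∀ l : GW d, f (QuotientAddGroup.mk (Finsupp.single l 1)) =
      g (QuotientAddGroup.mk (Finsupp.single l 1))) : f = g := by
  apply QuotientAddGroup.addMonoidHom_ext
  apply Finsupp.addHom_ext'
  intro l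
  apply AddMonoidHom.ext_int
  exact h l

theorem bri (hREA : T_REA) (hGAU : T_GAU) (hWSC : T_WSC) (hVFC : T_VFC) (_hEXA : T_EXA) :
    T_BRI := by
  intro S hS R _
  constructor
  · intro hY d W
    obtain ⟨W', hW', hWl⟩ := (hWSC d R).2 W
    obtain ⟨v, hv1, hv2, hv3⟩ := hY d W' hW'
    obtain ⟨φ, -, hφ⟩ := (hVFC d R).1 v hv1 hv2
    refine ⟨φ, ?_⟩
    have hc : φ.comp (S.φ d) = W := by
      apply hom_ext
      intro l
      obtain ⟨n, w, f, hk, hd, hf, hg⟩ := hREA d l.1 l.2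
      have hgw : Gw d (l.1.map f) := by
        have h1 := (hGAU n w hk).1
        rw [hd, hg] at h1
        exact h1
      have hq : (QuotientAddGroup.mk (Finsupp.single (⟨l.1.map f, hgw⟩ : GW d) (1 : ℤ)) : Chd d) =
          QuotientAddGroup.mk (Finsupp.single l 1) := by
        rw [← sub_eq_zero, ← QuotientAddGroup.mk_sub, QuotientAddGroup.eq_zero_iff]
        exact AddSubgroup.subset_closure (Rel.relab l ⟨l.1.map f, hgw⟩ f hf rfl)
      have h2 := hS d n w ⟨l.1.map f, hgw⟩ hk hd hg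
      rw [← hq]
      show φ (S.φ d (QuotientAddGroup.mk (Finsupp.single (⟨l.1.map f, hgw⟩ : GW d) (1 : ℤ)))) = _
      rw [h2, hφ n w hk, hv3 n w hk hd, hWl, hg]
    intro a
    exact DFunLike.congr_fun hc a
  · intro hY d W' hW'
    obtain ⟨W, hW⟩ := (hWSC d R).1 W' hW'
    obtain ⟨v, hv⟩ := hY d W
    obtain ⟨h1, h2, h3⟩ := (hVFC d R).2 v
    refine ⟨fun n w => v (QuotientAddGroup.mk (kn n w)), h1, h2, ?_⟩
    intro n w hk hd
    have hgw : Gw d (gauss w) := by
      have h4 := (hGAU n w hk).1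
      rw [hd] at h4
      exact h4
    have h5 := hS d n w ⟨gauss w, hgw⟩ hk hd rfl
    rw [h3 n w hk, ← h5, hv, hW]

end Pool.Agent.H86.LNT
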